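import Pool.Agent.Run7.h65.AxisMain

/-!
# MP_d08855_an: no double exponential growth on the coordinate axes in the odd class

For every smooth compactly supported solution of the model equation whose initial datum is odd in
the second variable (in particular in the symmetry class of the Kiselev-Sverak scenario, whose
hyperbolic point is the origin), the gradient of the vorticity at every point of both coordinate
axes is at most `C exp(C t²)`.
-/

open Run7.h65

namespace Pool.Agent.Results.MP_d08855_an.AxisGrowth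

theorem result {ω : ℝ → ℝ × ℝ → ℝ} (h : IsSmoothSolution ω)
    (hodd : ∀ x y : ℝ, ω 0 (x, -y) = -ω 0 (x, y)) :
    ∃ C : ℝ, 0 < C ∧ ∀ t, 0 ≤ t → ∀ p : ℝ × ℝ, (p.1 = 0 ∨ p.2 = 0) →
      ‖fderiv ℝ (ω t) p‖ ≤ C * Real.exp (C * t ^ 2) ∧
      ∀ z : ℝ × ℝ, |ω t z - ω t p|
        ≤ C * Real.exp (C * t ^ 2) * Real.sqrt ((z.1 - p.1) ^ 2 + (z.2 - p.2) ^ 2) :=
  axis_growth h hodd

end Pool.Agent.Results.MP_d08855_an.AxisGrowth
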