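import Pool.Agent.Run7.h65.DoubleExp

/-!
# MP_d08855_an: the gradient grows at most double exponentially in the sign-definite odd class

The velocity of the model depends on the vorticity through `P2 ω` evaluated at the same radius, so
the velocity gradient contains a radial derivative of `P2 ω` and is not bounded by a logarithm of
the vorticity gradient: the classical double exponential bound for 2D Euler does not carry over.
We prove the double exponential upper bound for every smooth compactly supported solution whose
initial datum is odd in the second variable and satisfies `ω₀(-x,y) ≤ ω₀(x,y)` in the first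
quadrant (the configuration of the Kiselev-Sverak scenario).
-/

open Run7.h65

namespace Pool.Agent.Results.MP_d08855_an.DoubleExpBound

theorem result {ω : ℝ → ℝ × ℝ → ℝ} (h : IsSmoothSolution ω)
    (hodd : ∀ x y : ℝ, ω 0 (x, -y) = -ω 0 (x, y))
    (hsgn : ∀ x y : ℝ, 0 ≤ x → 0 ≤ y → ω 0 (-x, y) ≤ ω 0 (x, y)) :
    ∃ C : ℝ, 0 < C ∧ ∀ t, 0 ≤ t → ∀ z : ℝ × ℝ,
      ‖fderiv ℝ (ω t) z‖ ≤ Real.exp (C * Real.exp (C * t)) :=
  double_exp_bound h hodd hsgn

end Pool.Agent.Results.MP_d08855_an.DoubleExpBound
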