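import Pool.Agent.Run7.h65.Kappa

/-!
# MP_d08855_an: exponential growth of the gradient at the origin, for every solution of a class

For every smooth compactly supported solution of the model equation whose initial datum is odd in
the second variable, satisfies `ω₀(-x,y) ≤ ω₀(x,y)` in the first quadrant and is not even in the
first variable, the gradient at the origin grows at least exponentially, unless it vanishes
initially.
-/

open Run7.h65

namespace Pool.Agent.Results.MP_d08855_an.ExponentialGrowth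

theorem result {ω : ℝ → ℝ × ℝ → ℝ} (h : IsSmoothSolution ω)
    (hodd : ∀ x y : ℝ, ω 0 (x, -y) = -ω 0 (x, y))
    (hsgn : ∀ x y : ℝ, 0 ≤ x → 0 ≤ y → ω 0 (-x, y) ≤ ω 0 (x, y))
    (hne : ∃ x y : ℝ, ω 0 (-x, y) ≠ ω 0 (x, y)) :
    ∃ c : ℝ, 0 < c ∧ ∀ t, 0 ≤ t →
      ‖fderiv ℝ (ω 0) 0‖ * Real.exp (c * t) ≤ ‖fderiv ℝ (ω t) 0‖ :=
  exp_lower h hodd hsgn hne

end Pool.Agent.Results.MP_d08855_an.ExponentialGrowth
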